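import Pool.Agent.W208.TL.All

set_option autoImplicit false

namespace Pool.Agent.Results.MP_f3f922_nt.OneArbitraryFactor

open Finset Filter

/-- `1`-bounded multiplicative functions -/
def BMul (g : ℕ → ℂ) : Prop :=
  (∀ n, ‖g n‖ ≤ 1) ∧ g 1 = 1 ∧ ∀ m n : ℕ, Nat.Coprime m n → g (m * n) = g m * g n

/-- the twist `n ^ {i t}` -/
noncomputable def nit (t : ℝ) (n : ℕ) : ℂ := Complex.exp (Complex.I * (t * Real.log n : ℝ))

/-- mean values up to `X` in residue classes, for all moduli up to `A` and all twists `|t| ≤ A`,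
are at most `1 / A` -/
def SmallMeans (f : ℕ → ℂ) (A X : ℕ) : Prop := ∀ q r : ℕ, 1 ≤ q → q ≤ A → ∀ t : ℝ, |t| ≤ A →
  ‖∑ n ∈ (Ioc 0 X).filter (fun n => n ≡ r [MOD q]), f n * nit t n‖ ≤ X / A

theorem result (k h0 : ℕ) (h : Fin k → ℕ) (hinj : Function.Injective h) (hne : ∀ j, h j ≠ h0)
    (B : ℕ) (ε : ℝ) (hε : 0 < ε) : ∃ A X0 : ℕ, 1 ≤ A ∧ ∀ X : ℕ, X0 ≤ X →
    ∀ f : ℕ → ℂ, BMul f → SmallMeans f A X →
    ∀ (q : Fin k → ℕ) (χ : ∀ j, DirichletCharacter ℂ (q j)) (t : Fin k → ℝ) (u : Fin k → ℕ → ℂ),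
      (∀ j, 1 ≤ q j ∧ q j ≤ B) → (∀ j, |t j| ≤ B) → (∀ j, BMul (u j)) →
      (∀ j, ∑ p ∈ (Icc 1 X).filter (fun p => p.Prime ∧ X < p ^ A), (1 - (u j p).re) / p ≤ 1 / A) →
      ‖∑ n ∈ Ioc 0 X, f (n + h0) * ∏ j, (χ j ((n + h j : ℕ) : ZMod (q j)) * nit (t j) (n + h j) *
        u j (n + h j))‖ ≤ ε * X :=
  Pool.Agent.W208.TL.UELL_all k h0 h hinj hne B ε hε

end Pool.Agent.Results.MP_f3f922_nt.OneArbitraryFactor
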